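import Pool.Agent.Helper92.TG.Wt

set_option autoImplicit false

/-!
# Graphs whose cycles are triangles
-/

namespace Pool.Agent.Helper92.TG

open Pool.Agent.H983R2.IM

variable {V : Type} {G : SimpleGraph V}

/-- All cycles are triangles. -/
def OnlyTri (G : SimpleGraph V) : Prop := ∀ (v : V) (c : G.Walk v v), c.IsCycle → c.length = 3

theorem no_four (hG : OnlyTri G) {a b c d : V} (hab : G.Adj a b) (hbc : G.Adj b c)
    (hcd : G.Adj c d) (hda : G.Adj d a) (hac : a ≠ c) (hbd : b ≠ d) : False := by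
  have h1 : (SimpleGraph.Walk.cons hda
      (.cons hab (.cons hbc (.cons hcd .nil)))).IsCycle := by
    rw [SimpleGraph.Walk.cons_isCycle_iff]
    constructor
    · simp [SimpleGraph.Walk.isPath_def, hab.ne, hbc.ne, hcd.ne, hda.ne.symm, hac, hbd]
    · simp [hab.ne, hbc.ne, hcd.ne, hda.ne, hda.ne.symm, hac, hbd, hbd.symm, hac.symm,
        hab.ne.symm, hbc.ne.symm, hcd.ne.symm]
  have := hG _ _ h1
  simp at this

theorem middle (hG : OnlyTri G) {a b : V} (hab : G.Adj a b) (E0 : Set (Sym2 V))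
    (hE : s(a, b) ∈ E0) (h : (G.deleteEdges E0).Reachable a b) :
    ∃ c, (G.deleteEdges E0).Adj a c ∧ (G.deleteEdges E0).Adj c b := by
  classical
  obtain ⟨p0⟩ := h
  obtain ⟨p, hp⟩ : ∃ p : (G.deleteEdges E0).Walk a b, p.IsPath := ⟨p0.toPath.1, p0.toPath.2⟩
  have hle : ∀ e ∈ p.edges, e ∈ G.edgeSet := by
    intro e he
    have h1 := p.edges_subset_edgeSet he
    rw [SimpleGraph.edgeSet_deleteEdges] at h1
    exact h1.1
  have hcyc : (SimpleGraph.Walk.cons hab.symm (p.transfer G hle)).IsCycle := by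
    rw [SimpleGraph.Walk.cons_isCycle_iff]
    refine ⟨hp.transfer hle, ?_⟩
    rw [SimpleGraph.Walk.edges_transfer]
    intro he
    have h1 := p.edges_subset_edgeSet he
    rw [SimpleGraph.edgeSet_deleteEdges] at h1
    rw [Sym2.eq_swap] at h1
    exact h1.2 hE
  have hlen := hG _ _ hcyc
  rw [SimpleGraph.Walk.length_cons, SimpleGraph.Walk.length_transfer] at hlen
  have hlen2 : p.length = 2 := by omega
  match p, hlen2 with
  | .cons h1 (.cons h2 .nil), _ => exact ⟨_, h1, h2⟩

/-- An edge without a common neighbour of its ends is a bridge. -/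
theorem bridge (hG : OnlyTri G) {a b : V} (hab : G.Adj a b)
    (hn : ¬ ∃ c, G.Adj a c ∧ G.Adj c b) : ¬ (G.deleteEdges {s(a, b)}).Reachable a b := by
  intro h
  obtain ⟨c, h1, h2⟩ := middle hG hab {s(a, b)} rfl h
  rw [SimpleGraph.deleteEdges_adj] at h1 h2
  exact hn ⟨c, h1.1, h2.1⟩

/-- The corners of a triangle are separated by the rest. -/
theorem sep (hG : OnlyTri G) {a b d : V} (hab : G.Adj a b) (hbd : G.Adj b d) (had : G.Adj a d)
    (E0 : Set (Sym2 V)) (h1 : s(a, b) ∈ E0) (h3 : s(a, d) ∈ E0) :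
    ¬ (G.deleteEdges E0).Reachable a b := by
  intro h
  obtain ⟨c, g1, g2⟩ := middle hG hab E0 h1 h
  rw [SimpleGraph.deleteEdges_adj] at g1 g2
  have hcd : c ≠ d := by
    rintro rfl
    exact g1.2 h3
  exact no_four hG g1.1 g2.1 hbd had.symm hab.ne hcd

/-- A triangle which shares an edge with another one is equal to it. -/
theorem share (hG : OnlyTri G) {a b d z : V} (hab : G.Adj a b) (hbd : G.Adj b d) (had : G.Adj a d)
    (haz : G.Adj a z) (hbz : G.Adj b z) : z = d := by
  by_contra hne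
  exact no_four hG haz hbz.symm hbd had.symm hab.ne hne

theorem share_T [DecidableEq V] (hG : OnlyTri G) {a b d x y z : V} (hab : G.Adj a b)
    (hbd : G.Adj b d) (had : G.Adj a d) (hT : T a b d x y) (hxz : G.Adj x z) (hyz : G.Adj y z) :
    z = a ∨ z = b ∨ z = d := by
  obtain ⟨hxy, hx, hy⟩ := hT
  rcases hx with rfl | rfl | rfl <;> rcases hy with rfl | rfl | rfl
  · exact absurd rfl hxy
  · exact Or.inr (Or.inr (share hG hab hbd had hxz hyz))
  · exact Or.inr (Or.inl (share hG had hbd.symm hab hxz hyz))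
  · exact Or.inr (Or.inr (share hG hab hbd had hyz hxz))
  · exact absurd rfl hxy
  · exact Or.inl (share hG hbd had.symm hab.symm hxz hyz)
  · exact Or.inr (Or.inl (share hG had hbd.symm hab hyz hxz))
  · exact Or.inl (share hG hbd had.symm hab.symm hyz hxz)
  · exact absurd rfl hxy

end Pool.Agent.Helper92.TG
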