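import Pool.Agent.Helper92.TG.Gr

set_option autoImplicit false

/-!
# Monotonicity of the relaxation time for graphs whose cycles are triangles
-/

namespace Pool.Agent.Helper92.TG

open Pool.Agent.H983R2.IM

variable {n : ℕ}

theorem T_symm {a b d x y : Fin n} (h : T a b d x y) : T a b d y x := ⟨h.1.symm, h.2.2, h.2.1⟩

/-- The cut sets. -/
noncomputable def cut (G : SimpleGraph (Fin n)) (E0 : Set (Sym2 (Fin n))) (a : Fin n) :
    Finset (Fin n) := by
  classical
  exact Finset.univ.filter fun y => (G.deleteEdges E0).Reachable a y

theorem mem_cut {G : SimpleGraph (Fin n)} {E0 : Set (Sym2 (Fin n))} {a y : Fin n} :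
    y ∈ cut G E0 a ↔ (G.deleteEdges E0).Reachable a y := by
  classical
  unfold cut
  simp

theorem cut_zero {G : SimpleGraph (Fin n)} {E0 : Set (Sym2 (Fin n))} (R : Fin n → Fin n → ℝ)
    (hR : ∀ x y, R x y ≠ 0 → (G.deleteEdges E0).Adj x y) (a : Fin n) :
    ∀ x ∈ cut G E0 a, ∀ y, y ∉ cut G E0 a → R x y = 0 ∧ R y x = 0 := by
  intro x hx y hy
  rw [mem_cut] at hx hy
  constructor
  · by_contra h
    exact hy (hx.trans (hR x y h).reachable)
  · by_contra h
    exact hy (hx.trans (hR y x h).symm.reachable)

theorem main_aux (G : SimpleGraph (Fin n)) [DecidableRel G.Adj] (hG : OnlyTri G) (β β' : ℝ)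
    (h0 : 0 ≤ β) (h1 : β ≤ β') (c : ℝ) :
    ∀ (N : ℕ) (k : Fin n → Fin n → ℝ), (∀ x y, k x y = k y x) →
      (∀ x y, k x y = β ∨ k x y = β') →
      (∀ x y z, G.Adj x y → G.Adj y z → G.Adj x z → k x y = k y z) →
      (Finset.univ.filter (fun p : Fin n × Fin n => G.Adj p.1 p.2 ∧ k p.1 p.2 ≠ β)).card ≤ N →
      OG (w (fun x y => if G.Adj x y then k x y else 0)) c →
      OG (w (fun x y => if G.Adj x y then β else 0)) c := by
  intro N
  induction N with
  | zero =>
    intro k _ _ _ hN h
    have hD := Finset.card_eq_zero.1 (Nat.le_zero.1 hN)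
    have e : (fun x y => if G.Adj x y then k x y else 0) = fun x y => if G.Adj x y then β else 0 := by
      funext x y
      by_cases hxy : G.Adj x y
      · rw [if_pos hxy, if_pos hxy]
        by_contra hne
        have : (x, y) ∈ Finset.univ.filter
            (fun p : Fin n × Fin n => G.Adj p.1 p.2 ∧ k p.1 p.2 ≠ β) :=
          Finset.mem_filter.2 ⟨Finset.mem_univ _, hxy, hne⟩
        rw [hD] at this
        exact absurd this (Finset.notMem_empty _)
      · rw [if_neg hxy, if_neg hxy]
    rw [← e]
    exact h
  | succ N ih =>
    intro k ks kv kt hN h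
    by_cases hcase : ∃ a b, G.Adj a b ∧ k a b ≠ β
    · obtain ⟨a, b, hab, hne⟩ := hcase
      have hkab : k a b = β' := (kv a b).resolve_left hne
      have hcard : ∀ k' : Fin n → Fin n → ℝ, k' a b = β →
          (∀ x y, G.Adj x y → k' x y ≠ β → k x y ≠ β) →
          (Finset.univ.filter (fun p : Fin n × Fin n => G.Adj p.1 p.2 ∧ k' p.1 p.2 ≠ β)).card ≤
            N := by
        intro k' hk1 hk2
        have hlt : (Finset.univ.filter
            (fun p : Fin n × Fin n => G.Adj p.1 p.2 ∧ k' p.1 p.2 ≠ β)).card <
            (Finset.univ.filter (fun p : Fin n × Fin n => G.Adj p.1 p.2 ∧ k p.1 p.2 ≠ β)).card := by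
          refine Finset.card_lt_card ((Finset.ssubset_iff_of_subset ?_).2 ⟨(a, b), ?_, ?_⟩)
          · intro p hp
            rw [Finset.mem_filter] at hp ⊢
            exact ⟨hp.1, hp.2.1, hk2 _ _ hp.2.1 hp.2.2⟩
          · exact Finset.mem_filter.2 ⟨Finset.mem_univ _, hab, hne⟩
          · rw [Finset.mem_filter]
            rintro ⟨_, _, h6⟩
            exact h6 hk1
        omega
      by_cases htri : ∃ d, G.Adj a d ∧ G.Adj d b
      · obtain ⟨d, had, hdb⟩ := htri
        have hbd := hdb.symm
        have kT : ∀ x y, T a b d x y → G.Adj x y ∧ k x y = β' := by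
          have k1 : k b d = β' := by rw [← kt a b d hab hbd had, hkab]
          have k2 : k d a = β' := by rw [kt d a b had.symm hab hdb, hkab]
          rintro x y ⟨hxy, hx, hy⟩
          rcases hx with rfl | rfl | rfl <;> rcases hy with rfl | rfl | rfl
          · exact absurd rfl hxy
          · exact ⟨hab, hkab⟩
          · exact ⟨had, by rw [ks, k2]⟩
          · exact ⟨hab.symm, by rw [ks, hkab]⟩
          · exact absurd rfl hxy
          · exact ⟨hbd, k1⟩
          · exact ⟨had.symm, k2⟩
          · exact ⟨hdb, by rw [ks, k1]⟩
          · exact absurd rfl hxy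
        set R : Fin n → Fin n → ℝ := fun x y =>
          if T a b d x y then 0 else (if G.Adj x y then k x y else 0) with hR
        have e1 : (fun x y => if G.Adj x y then k x y else 0) =
            fun x y => R x y + β' * (if T a b d x y then (1 : ℝ) else 0) := by
          funext x y
          simp only [hR]
          by_cases hT : T a b d x y
          · rw [if_pos hT, if_pos hT, if_pos (kT x y hT).1, (kT x y hT).2]
            ring
          · rw [if_neg hT, if_neg hT]
            ring
        have e2 : (fun x y => if G.Adj x y then (if T a b d x y then β else k x y) else 0) =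
            fun x y => R x y + β * (if T a b d x y then (1 : ℝ) else 0) := by
          funext x y
          simp only [hR]
          by_cases hT : T a b d x y
          · rw [if_pos hT, if_pos hT, if_pos hT, if_pos (kT x y hT).1]
            ring
          · rw [if_neg hT, if_neg hT, if_neg hT]
            ring
        set E0 : Set (Sym2 (Fin n)) := {s(a, b), s(b, d), s(a, d)} with hE0
        have m1 : s(a, b) ∈ E0 := by simp [hE0]
        have m2 : s(b, d) ∈ E0 := by simp [hE0]
        have m3 : s(a, d) ∈ E0 := by simp [hE0]
        have hRE : ∀ x y, R x y ≠ 0 → (G.deleteEdges E0).Adj x y := by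
          intro x y hne
          simp only [hR] at hne
          by_cases hT : T a b d x y
          · rw [if_pos hT] at hne
            exact absurd rfl hne
          · rw [if_neg hT] at hne
            by_cases hxy : G.Adj x y
            · rw [SimpleGraph.deleteEdges_adj]
              refine ⟨hxy, fun hmem => hT ?_⟩
              rw [hE0] at hmem
              simp only [Set.mem_insert_iff, Set.mem_singleton_iff, Sym2.eq_iff] at hmem
              refine ⟨hxy.ne, ?_, ?_⟩
              · rcases hmem with (h | h) | (h | h) | (h | h) <;> simp [h.1]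
              · rcases hmem with (h | h) | (h | h) | (h | h) <;> simp [h.2]
            · rw [if_neg hxy] at hne
              exact absurd rfl hne
        have sab : ¬ (G.deleteEdges E0).Reachable a b := sep hG hab hbd had E0 m1 m3
        have sad : ¬ (G.deleteEdges E0).Reachable a d := sep hG had hbd.symm hab E0 m3 m1
        have sbd : ¬ (G.deleteEdges E0).Reachable b d :=
          sep hG hbd had.symm hab.symm E0 m2 (by rw [Sym2.eq_swap]; exact m1)
        rw [e1] at h
        have h2 := OG_tri R hab.ne hbd.ne had.ne (cut G E0 a) (cut G E0 b) (cut G E0 d)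
          (cut_zero R hRE a) (cut_zero R hRE b) (cut_zero R hRE d)
          (mem_cut.2 (SimpleGraph.Reachable.refl _)) (fun h => sab (mem_cut.1 h))
          (fun h => sad (mem_cut.1 h)) (fun h => sab (mem_cut.1 h).symm)
          (mem_cut.2 (SimpleGraph.Reachable.refl _)) (fun h => sbd (mem_cut.1 h))
          (fun h => sad (mem_cut.1 h).symm) (fun h => sbd (mem_cut.1 h).symm)
          (mem_cut.2 (SimpleGraph.Reachable.refl _)) h0 h1 h
        rw [← e2] at h2
        refine ih (fun x y => if T a b d x y then β else k x y) ?_ ?_ ?_
          (hcard (fun x y => if T a b d x y then β else k x y) ?_ ?_) h2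
        · intro x y
          by_cases hT : T a b d x y
          · simp only [if_pos hT, if_pos (T_symm hT)]
          · have hT' : ¬ T a b d y x := fun h => hT (T_symm h)
            simp only [if_neg hT, if_neg hT']
            exact ks x y
        · intro x y
          by_cases hT : T a b d x y
          · simp only [if_pos hT]
            exact Or.inl trivial
          · simp only [if_neg hT]
            exact kv x y
        · intro x y z hxy hyz hxz
          by_cases hT : T a b d x y
          · have hz := share_T hG hab hbd had hT hxz hyz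
            have hT2 : T a b d y z := ⟨hyz.ne, hT.2.2, hz⟩
            simp only [if_pos hT, if_pos hT2]
          · have hT2 : ¬ T a b d y z := by
              intro h4
              have hx := share_T hG hab hbd had h4 hxy.symm hxz.symm
              exact hT ⟨hxy.ne, hx, h4.2.1⟩
            simp only [if_neg hT, if_neg hT2]
            exact kt x y z hxy hyz hxz
        · have hT : T a b d a b := ⟨hab.ne, Or.inl rfl, Or.inr (Or.inl rfl)⟩
          simp only [if_pos hT]
        · intro x y _ hk
          by_cases hT : T a b d x y
          · simp only [if_pos hT] at hk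
            exact absurd rfl hk
          · simp only [if_neg hT] at hk
            exact hk
      · have hbr := bridge hG hab (fun ⟨e, h1, h2⟩ => htri ⟨e, h1, h2⟩)
        set J : Fin n → Fin n → ℝ := fun x y => if G.Adj x y then k x y else 0 with hJ
        have hs : ∀ x y, J x y = J y x := by
          intro x y
          simp only [hJ, G.adj_comm x y, ks x y]
        have hBr : Br J a b := by
          refine ⟨cut G {s(a, b)} a, mem_cut.2 (SimpleGraph.Reachable.refl _),
            fun h => hbr (mem_cut.1 h), ?_⟩
          intro x hx y hy hxy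
          rw [mem_cut] at hx hy
          have hadj : G.Adj x y := by
            by_contra hcon
            exact hxy (if_neg hcon)
          have hss : s(x, y) = s(a, b) := by
            by_contra hcon
            refine hy (hx.trans (SimpleGraph.Adj.reachable ?_))
            rw [SimpleGraph.deleteEdges_adj]
            exact ⟨hadj, by simpa using hcon⟩
          rw [Sym2.eq_iff] at hss
          rcases hss with h3 | ⟨h3, h4⟩
          · exact h3
          · exfalso
            rw [h3] at hx
            exact hbr hx
        have e1 : setP J a b β' = J := by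
          have := cha_setP_self J hs a b
          have h3 : J a b = β' := by simp only [hJ, if_pos hab, hkab]
          rw [h3] at this
          exact this
        have h2 := OG_bridge J hs a b hBr β β' c (by rw [abs_of_nonneg h0]; exact h1)
          (by rw [e1]; exact h)
        have e2 : setP J a b β = fun x y =>
            if G.Adj x y then (if (x = a ∧ y = b) ∨ (x = b ∧ y = a) then β else k x y) else 0 := by
          funext x y
          unfold setP
          by_cases h3 : (x = a ∧ y = b) ∨ (x = b ∧ y = a)
          · have hadj : G.Adj x y := by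
              rcases h3 with ⟨rfl, rfl⟩ | ⟨rfl, rfl⟩
              · exact hab
              · exact hab.symm
            rw [if_pos h3, if_pos hadj, if_pos h3]
          · rw [if_neg h3, if_neg h3]
        rw [e2] at h2
        refine ih (fun x y => if (x = a ∧ y = b) ∨ (x = b ∧ y = a) then β else k x y) ?_ ?_ ?_
          (hcard (fun x y => if (x = a ∧ y = b) ∨ (x = b ∧ y = a) then β else k x y) ?_ ?_) h2
        · intro x y
          by_cases h3 : (x = a ∧ y = b) ∨ (x = b ∧ y = a)
          · have h4 : (y = a ∧ x = b) ∨ (y = b ∧ x = a) := by tauto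
            simp only [if_pos h3, if_pos h4]
          · have h4 : ¬ ((y = a ∧ x = b) ∨ (y = b ∧ x = a)) := by tauto
            simp only [if_neg h3, if_neg h4]
            exact ks x y
        · intro x y
          by_cases h3 : (x = a ∧ y = b) ∨ (x = b ∧ y = a)
          · simp only [if_pos h3]
            exact Or.inl trivial
          · simp only [if_neg h3]
            exact kv x y
        · intro x y z hxy hyz hxz
          have h3 : ¬ ((x = a ∧ y = b) ∨ (x = b ∧ y = a)) := by
            rintro (⟨rfl, rfl⟩ | ⟨rfl, rfl⟩)
            · exact htri ⟨z, hxz, hyz.symm⟩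
            · exact htri ⟨z, hyz, hxz.symm⟩
          have h4 : ¬ ((y = a ∧ z = b) ∨ (y = b ∧ z = a)) := by
            rintro (⟨rfl, rfl⟩ | ⟨rfl, rfl⟩)
            · exact htri ⟨x, hxy.symm, hxz⟩
            · exact htri ⟨x, hxz.symm, hxy⟩
          simp only [if_neg h3, if_neg h4]
          exact kt x y z hxy hyz hxz
        · simp
        · intro x y _ hk
          by_cases h3 : (x = a ∧ y = b) ∨ (x = b ∧ y = a)
          · simp only [if_pos h3] at hk
            exact absurd rfl hk
          · simp only [if_neg h3] at hk
            exact hk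
    · refine ih k ks kv kt ?_ h
      have hD : Finset.univ.filter (fun p : Fin n × Fin n => G.Adj p.1 p.2 ∧ k p.1 p.2 ≠ β) = ∅ := by
        apply Finset.filter_eq_empty_iff.mpr
        intro p _ hp
        exact hcase ⟨p.1, p.2, hp.1, hp.2⟩
      rw [hD]
      simp

theorem main (n : ℕ) (G : SimpleGraph (Fin n)) [DecidableRel G.Adj] (hG : OnlyTri G) (β β' : ℝ)
    (h0 : 0 ≤ β) (h1 : β ≤ β') (c : ℝ)
    (h : ∀ f : (Fin n → Bool) → ℝ, c * VarF G β' f ≤ DirF G β' f) :
    ∀ f : (Fin n → Bool) → ℝ, c * VarF G β f ≤ DirF G β f := by
  rcases Nat.eq_zero_or_pos n with hn | hn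
  · subst hn
    exact fun f => fid_zero G β c f
  have : Nonempty (Fin n) := ⟨⟨0, hn⟩⟩
  rw [FG_iff_frozen hn] at h ⊢
  have h2 := OG_of_FG _ c h
  refine FG_of_OG _ ?_ ?_ c (main_aux G hG β β' h0 h1 c _ (fun _ _ => β') (fun _ _ => rfl)
    (fun _ _ => Or.inr rfl) (fun _ _ _ _ _ _ => rfl) le_rfl h2)
  · intro x y
    simp only [G.adj_comm x y]
  · intro x y _
    split_ifs
    · exact h0
    · exact le_rfl

end Pool.Agent.Helper92.TG
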