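import Pool.Graph.R_pool_sql_team_seeded_f0cf7b00.H983R2.IM.Fid

set_option autoImplicit false

/-!
# Weakening a triangle
-/

namespace Pool.Agent.Helper92.TG

open Pool.Agent.H983R2.IM

variable {V : Type} [Fintype V] [DecidableEq V]

theorem H_add (J K : V → V → ℝ) (σ : V → Bool) :
    H (fun x y => J x y + K x y) σ = H J σ + H K σ := by
  unfold H
  rw [← add_div, ← Finset.sum_add_distrib]
  congr 1
  refine Finset.sum_congr rfl fun i _ => ?_
  rw [← Finset.sum_add_distrib]
  exact Finset.sum_congr rfl fun j _ => by ring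

theorem H_mul (t : ℝ) (J : V → V → ℝ) (σ : V → Bool) :
    H (fun x y => t * J x y) σ = t * H J σ := by
  unfold H
  rw [← mul_div_assoc, Finset.mul_sum]
  congr 1
  refine Finset.sum_congr rfl fun i _ => ?_
  rw [Finset.mul_sum]
  exact Finset.sum_congr rfl fun j _ => by ring

theorem H_ind (a b : V) (hab : a ≠ b) (σ : V → Bool) :
    H (setP (fun _ _ => 0) a b 1) σ = sp (σ a) * sp (σ b) := by
  rw [H_setP _ a b hab]
  have h1 : setP (fun _ _ : V => (0 : ℝ)) a b 0 = fun _ _ => 0 := by
    funext x y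
    unfold setP
    split_ifs <;> rfl
  rw [h1]
  have h2 : H (fun _ _ : V => (0 : ℝ)) σ = 0 := by
    unfold H
    simp
  rw [h2]
  ring

/-- The pairs of the triangle. -/
def T (a b d x y : V) : Prop := x ≠ y ∧ (x = a ∨ x = b ∨ x = d) ∧ (y = a ∨ y = b ∨ y = d)

instance (a b d x y : V) : Decidable (T a b d x y) := by
  unfold T
  infer_instance

theorem H_T {a b d : V} (hab : a ≠ b) (hbd : b ≠ d) (had : a ≠ d) (σ : V → Bool) :
    H (fun x y => if T a b d x y then (1 : ℝ) else 0) σ =
      sp (σ a) * sp (σ b) + sp (σ b) * sp (σ d) + sp (σ a) * sp (σ d) := by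
  have h1 : (fun x y => if T a b d x y then (1 : ℝ) else 0) =
      fun x y => (setP (fun _ _ => 0) a b 1 x y + setP (fun _ _ => 0) b d 1 x y) +
        setP (fun _ _ => 0) a d 1 x y := by
    funext x y
    unfold T setP
    by_cases x1 : x = a
    · subst x1
      by_cases y1 : y = x
      · subst y1
        simp [hab, had]
      · by_cases y2 : y = b
        · subst y2
          simp [hab, hbd, had]
        · by_cases y3 : y = d
          · subst y3
            simp [hab, had, y2]
          · simp [y1, y2, y3]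
    · by_cases x2 : x = b
      · subst x2
        by_cases y1 : y = a
        · subst y1
          simp [hab, hbd, had, hab.symm]
        · by_cases y2 : y = x
          · subst y2
            simp [hbd, hab.symm]
          · by_cases y3 : y = d
            · subst y3
              simp [x1, hbd, y1]
            · simp [y1, y2, y3]
      · by_cases x3 : x = d
        · subst x3
          by_cases y1 : y = a
          · subst y1
            simp [x1, x2, hab]
          · by_cases y2 : y = b
            · subst y2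
              simp [x1, x2, y1]
            · by_cases y3 : y = x
              · subst y3
                simp [x1, x2]
              · simp [y1, y2, y3]
        · simp [x1, x2, x3]
  rw [h1, H_add, H_add, H_ind a b hab, H_ind b d hbd, H_ind a d had]

theorem H_gauge (R : V → V → ℝ) (A : Finset V) (hA : ∀ x ∈ A, ∀ y, y ∉ A → R x y = 0 ∧ R y x = 0)
    (σ : V → Bool) : H R (gf A σ) = H R σ := by
  unfold H
  congr 1
  refine Finset.sum_congr rfl fun i _ => Finset.sum_congr rfl fun j _ => ?_
  rw [qco_gf, qco_gf]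
  by_cases hi : i ∈ A <;> by_cases hj : j ∈ A
  · rw [if_pos hi, if_pos hj]
    ring
  · rw [(hA i hi j hj).1]
    ring
  · rw [(hA j hj i hi).2]
    ring
  · rw [if_neg hi, if_neg hj]

/-- Weakening a triangle whose corners are separated by the rest. -/
theorem OG_tri (R : V → V → ℝ) {a b d : V} (hab : a ≠ b) (hbd : b ≠ d) (had : a ≠ d)
    (A B D : Finset V) (hA : ∀ x ∈ A, ∀ y, y ∉ A → R x y = 0 ∧ R y x = 0)
    (hB : ∀ x ∈ B, ∀ y, y ∉ B → R x y = 0 ∧ R y x = 0)
    (hD : ∀ x ∈ D, ∀ y, y ∉ D → R x y = 0 ∧ R y x = 0)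
    (aA : a ∈ A) (bA : b ∉ A) (dA : d ∉ A) (aB : a ∉ B) (bB : b ∈ B) (dB : d ∉ B)
    (aD : a ∉ D) (bD : b ∉ D) (dD : d ∈ D) {s t c : ℝ} (h0 : 0 ≤ s) (hst : s ≤ t)
    (h : OG (w (fun x y => R x y + t * (if T a b d x y then (1 : ℝ) else 0))) c) :
    OG (w (fun x y => R x y + s * (if T a b d x y then (1 : ℝ) else 0))) c := by
  rcases eq_or_lt_of_le (h0.trans hst) with ht | ht
  · have : s = t := by linarith
    rw [this]
    exact h
  have hw : ∀ (u : ℝ) (σ : V → Bool),
      w (fun x y => R x y + u * (if T a b d x y then (1 : ℝ) else 0)) σ =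
      Real.exp (H R σ) * Real.exp (u * (sp (σ a) * sp (σ b) + sp (σ b) * sp (σ d) +
        sp (σ a) * sp (σ d))) := by
    intro u σ
    unfold w
    rw [H_add, H_mul, H_T hab hbd had, Real.exp_add]
  have q3t : 0 < Real.exp (3 * t) := Real.exp_pos _
  have q1t : 0 < Real.exp (-t) := Real.exp_pos _
  have q3s : 0 < Real.exp (3 * s) := Real.exp_pos _
  have q1s : 0 < Real.exp (-s) := Real.exp_pos _
  have k1 : Real.exp (-t) < Real.exp (3 * t) := Real.exp_lt_exp.2 (by linarith)
  have k2 : Real.exp (-s) ≤ Real.exp (3 * s) := Real.exp_le_exp.2 (by linarith)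
  have k3 : Real.exp (-t) * Real.exp (3 * s) ≤ Real.exp (3 * t) * Real.exp (-s) := by
    rw [← Real.exp_add, ← Real.exp_add]
    exact Real.exp_le_exp.2 (by linarith)
  obtain ⟨x, hx⟩ : ∃ x, x = Real.exp (3 * t) := ⟨_, rfl⟩
  obtain ⟨y, hy⟩ : ∃ y, y = Real.exp (-t) := ⟨_, rfl⟩
  obtain ⟨z, hz⟩ : ∃ z, z = Real.exp (3 * s) := ⟨_, rfl⟩
  obtain ⟨v, hv⟩ : ∃ v, v = Real.exp (-s) := ⟨_, rfl⟩
  rw [← hx] at q3t k1 k3
  rw [← hy] at q1t k1 k3
  rw [← hz] at q3s k2 k3
  rw [← hv] at q1s k2 k3
  set dt : ℝ := (x - y) * (x + 3 * y) with hdt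
  have hdt0 : 0 < dt := mul_pos (by linarith) (by linarith)
  set α : ℝ := (z * (x + 2 * y) - 3 * y * v) / dt with hα
  set γ : ℝ := (x * v - y * z) / dt with hγ
  have hα0 : 0 < α := by
    refine div_pos ?_ hdt0
    nlinarith [mul_pos q3s q3t, mul_pos q3s q1t, mul_le_mul_of_nonneg_left k2 q1t.le,
      mul_lt_mul_of_pos_left k1 q3s]
  have hγ0 : 0 ≤ γ := div_nonneg (by linarith) hdt0.le
  have e1 : α * x + γ * (y + y + y) = z := by
    rw [hα, hγ]
    field_simp
    rw [hdt]
    ring
  have e2 : α * y + γ * (x + y + y) = v := by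
    rw [hα, hγ]
    field_simp
    rw [hdt]
    ring
  have gA := OG_gauge _ c A h
  have gB := OG_gauge _ c B h
  have gD := OG_gauge _ c D h
  have g1 := OG_add _ _ (fun σ => w_pos _ _) (fun σ => w_pos _ _) c 1 1 zero_le_one zero_le_one
    (by norm_num) gA gB
  have g2 := OG_add _ _ (fun σ => by
    have h1 := w_pos (fun x y => R x y + t * (if T a b d x y then (1 : ℝ) else 0)) (gf A σ)
    have h2 := w_pos (fun x y => R x y + t * (if T a b d x y then (1 : ℝ) else 0)) (gf B σ)
    positivity) (fun σ => w_pos _ _) c 1 1 zero_le_one zero_le_one (by norm_num) g1 gD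
  have g3 := OG_add _ _ (fun σ => w_pos _ _) (fun σ => by
    have h1 := w_pos (fun x y => R x y + t * (if T a b d x y then (1 : ℝ) else 0)) (gf A σ)
    have h2 := w_pos (fun x y => R x y + t * (if T a b d x y then (1 : ℝ) else 0)) (gf B σ)
    have h3 := w_pos (fun x y => R x y + t * (if T a b d x y then (1 : ℝ) else 0)) (gf D σ)
    positivity) c α γ hα0.le hγ0 (by linarith) h g2
  refine (congrArg (fun ν => OG ν c) ?_).mp g3
  funext σ
  have m3t : Real.exp (t * 3) = x := by rw [hx, mul_comm]
  have m1t : Real.exp (t * (-1)) = y := by rw [hy]; congr 1; ring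
  have m3s : Real.exp (s * 3) = z := by rw [hz, mul_comm]
  have m1s : Real.exp (s * (-1)) = v := by rw [hv]; congr 1; ring
  rw [hw, hw, hw, hw, hw, H_gauge R A hA, H_gauge R B hB, H_gauge R D hD]
  simp only [qco_gf, aA, bA, dA, aB, bB, dB, aD, bD, dD, if_true, if_false]
  rcases qco_sp (σ a) with ha | ha <;> rcases qco_sp (σ b) with hb | hb <;>
    rcases qco_sp (σ d) with hd | hd <;> rw [ha, hb, hd] <;> norm_num [m3t, m1t, m3s, m1s] <;>
    (try simp only [← hy, ← hv]) <;>
    first
      | linear_combination Real.exp (H R σ) * e1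
      | linear_combination Real.exp (H R σ) * e2

end Pool.Agent.Helper92.TG
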